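import Pool.Agent.helper37.QX.SpecG

/-!
Row `qg:CTJ` (MP_07c750_an).
-/

set_option autoImplicit false
set_option linter.unusedVariables false

open Filter Set

namespace Pool.Agent.QX

theorem CTJ_rec (hTAU : TAU_stmt) (i : Fin 4) (j : ℕ) : ta (List.replicate (j + 1) i) =
    ∑ k ∈ Finset.range j, ta (List.replicate k i) * ta (List.replicate (j - 1 - k) i) := by
  have h := hTAU.2 i (List.replicate j i)
  rw [List.replicate_succ, h]
  unfold spl
  rw [List.length_replicate]
  refine Finset.sum_congr rfl fun k hk => ?_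
  rw [Finset.mem_range] at hk
  rw [if_pos, List.take_replicate, List.drop_replicate, min_eq_left hk.le, show j - (k + 1) = j - 1 - k by omega]
  rw [List.getElem?_replicate, if_pos hk]

theorem CTJ_even (f : ℕ → ℂ) (hf : ∀ k, f (2 * k + 1) = 0) (n : ℕ) :
    ∑ m ∈ Finset.range (2 * n + 1), f m = ∑ a ∈ Finset.range (n + 1), f (2 * a) := by
  induction n with
  | zero => simp
  | succ n ih =>
    rw [show 2 * (n + 1) + 1 = (2 * n + 1) + 1 + 1 by ring, Finset.sum_range_succ, Finset.sum_range_succ, ih, hf,
      add_zero, Finset.sum_range_succ _ (n + 1)]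
    congr 1

theorem CTJ_cat (hTAU : TAU_stmt) (i : Fin 4) (n : ℕ) :
    ta (List.replicate (2 * n) i) = (catalan n : ℂ) ∧ ta (List.replicate (2 * n + 1) i) = 0 := by
  induction n using Nat.strong_induction_on with
  | _ n ih =>
    rcases Nat.eq_zero_or_pos n with h | h
    · subst h
      refine ⟨?_, ?_⟩
      · rw [mul_zero, List.replicate_zero, hTAU.1]
        simp
      · rw [CTJ_rec hTAU]
        simp
    · obtain ⟨n, rfl⟩ : ∃ k, n = k + 1 := ⟨n - 1, by omega⟩
      set f : ℕ → ℂ := fun m => if m ≤ 2 * n then ta (List.replicate m i) * ta (List.replicate (2 * n - m) i) else 0 with hf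
      have hodd : ∀ k, f (2 * k + 1) = 0 := by
        intro k
        rw [hf]
        show (if 2 * k + 1 ≤ 2 * n then ta (List.replicate (2 * k + 1) i) * ta (List.replicate (2 * n - (2 * k + 1)) i) else 0) = 0
        split_ifs with hk
        · rw [(ih k (by omega)).2, zero_mul]
        · rfl
      have h1 : ta (List.replicate (2 * (n + 1)) i) = (catalan (n + 1) : ℂ) := by
        rw [show 2 * (n + 1) = (2 * n + 1) + 1 by ring, CTJ_rec hTAU]
        have e1 : ∑ k ∈ Finset.range (2 * n + 1), ta (List.replicate k i) * ta (List.replicate (2 * n + 1 - 1 - k) i)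
            = ∑ k ∈ Finset.range (2 * n + 1), f k := by
          refine Finset.sum_congr rfl fun k hk => ?_
          rw [Finset.mem_range] at hk
          rw [hf]
          show _ = if k ≤ 2 * n then ta (List.replicate k i) * ta (List.replicate (2 * n - k) i) else 0
          rw [if_pos (by omega)]
          rfl
        rw [e1, CTJ_even f hodd, catalan_succ', Finset.Nat.sum_antidiagonal_eq_sum_range_succ
          (fun a b => catalan a * catalan b)]
        push_cast
        refine Finset.sum_congr rfl fun a ha => ?_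
        rw [Finset.mem_range] at ha
        rw [hf]
        show (if 2 * a ≤ 2 * n then ta (List.replicate (2 * a) i) * ta (List.replicate (2 * n - 2 * a) i) else 0) = _
        rw [if_pos (by omega), (ih a (by omega)).1, show 2 * n - 2 * a = 2 * (n - a) by omega, (ih (n - a) (by omega)).1]
      refine ⟨h1, ?_⟩
      rw [CTJ_rec hTAU]
      refine Finset.sum_eq_zero fun k hk => ?_
      rw [Finset.mem_range] at hk
      rcases Nat.even_or_odd k with ⟨a, ha⟩ | ⟨a, ha⟩
      · have e2 : 2 * (n + 1) - 1 - k = 2 * (n - a) + 1 := by omega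
        rw [e2, (ih (n - a) (by omega)).2, mul_zero]
      · rw [ha, (ih a (by omega)).2, zero_mul]

theorem CTJ_zs (c : ℝ) (b : Bool) (k : ℕ) : zs c b ^ (2 * k) = (((-1 : ℝ) ^ k * c ^ (2 * k) : ℝ) : ℂ) := by
  have h : zs c b ^ 2 = -((c : ℂ) ^ 2) := by
    unfold zs
    cases b
    · simp only [Bool.false_eq_true, if_false]
      rw [neg_sq, mul_pow, Complex.I_sq]
      ring
    · simp only [if_true]
      rw [mul_pow, Complex.I_sq]
      ring
  rw [pow_mul, h, neg_pow]
  push_cast
  rw [← pow_mul]

theorem CTJ_fac (k : ℕ) : catalan k * (k.factorial * (k + 1).factorial) = (2 * k).factorial := by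
  have h1 := succ_mul_catalan_eq_centralBinom k
  have h2 := Nat.choose_mul_factorial_mul_factorial (show k ≤ 2 * k by omega)
  rw [Nat.centralBinom_eq_two_mul_choose] at h1
  rw [show 2 * k - k = k by omega, ← h1] at h2
  rw [← h2, Nat.factorial_succ]
  ring

theorem CTJ (hTAU : TAU_stmt) : CTJ_stmt := by
  intro c i b
  have hinj : Function.Injective (fun k : ℕ => 2 * k) := by
    intro a b h
    have : 2 * a = 2 * b := h
    omega
  rw [← Function.Injective.hasSum_iff hinj]
  · have e : ((fun j : ℕ => zs c b ^ j / (j.factorial : ℂ) * ta (List.replicate j i)) ∘ fun k : ℕ => 2 * k) =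
        fun k : ℕ => (((-1 : ℝ) ^ k * c ^ (2 * k) / ((k.factorial : ℝ) * ((k + 1).factorial : ℝ)) : ℝ) : ℂ) := by
      funext k
      show zs c b ^ (2 * k) / ((2 * k).factorial : ℂ) * ta (List.replicate (2 * k) i) = _
      rw [(CTJ_cat hTAU i k).1, CTJ_zs, ← CTJ_fac k]
      have h0 : (catalan k : ℂ) ≠ 0 := by
        have h1 := CTJ_fac k
        intro h
        have h2 : catalan k = 0 := by exact_mod_cast h
        rw [h2, zero_mul] at h1
        exact (Nat.factorial_pos (2 * k)).ne h1
      have h1 : ((k.factorial : ℕ) : ℂ) ≠ 0 := by exact_mod_cast (Nat.factorial_pos k).ne'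
      have h2 : (((k + 1).factorial : ℕ) : ℂ) ≠ 0 := by exact_mod_cast (Nat.factorial_pos (k + 1)).ne'
      push_cast
      field_simp
    rw [e]
    have hs : Summable (fun k : ℕ => (-1 : ℝ) ^ k * c ^ (2 * k) / ((k.factorial : ℝ) * ((k + 1).factorial : ℝ))) := by
      refine Summable.of_norm_bounded (Real.summable_pow_div_factorial (c ^ 2)) fun k => ?_
      rw [Real.norm_eq_abs, abs_div, abs_mul, abs_pow, abs_neg, abs_one, one_pow, one_mul,
        abs_of_nonneg (by positivity : (0 : ℝ) ≤ (k.factorial : ℝ) * ((k + 1).factorial : ℝ)), abs_of_nonneg (by rw [pow_mul]; positivity : (0 : ℝ) ≤ c ^ (2 * k)), pow_mul]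
      refine div_le_div_of_nonneg_left (by positivity) (by exact_mod_cast Nat.factorial_pos k) ?_
      have h1 : (1 : ℝ) ≤ ((k + 1).factorial : ℝ) := by exact_mod_cast Nat.factorial_pos (k + 1)
      have h2 : (0 : ℝ) < (k.factorial : ℝ) := by exact_mod_cast Nat.factorial_pos k
      nlinarith
    exact Complex.hasSum_ofReal.2 hs.hasSum
  · intro x hx
    rcases Nat.even_or_odd x with ⟨a, ha⟩ | ⟨a, ha⟩
    · exact absurd ⟨a, by show 2 * a = x; omega⟩ hx
    · rw [ha, (CTJ_cat hTAU i a).2, mul_zero]

end Pool.Agent.QX
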