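import Pool.Agent.helper4.QX.SpecM

/-!
Row `qm:VAN` (MP_07c750_an): vanishing of the coefficients.
-/

set_option autoImplicit false
set_option linter.unusedVariables false

open Finset

noncomputable section

namespace Pool.Agent.QX

private theorem VAN_zero (e ν : ℕ → ℝ) (m : ℕ) (A B : ℝ)
    (h1 : ∀ N : ℕ, 1 ≤ N → |e N - ∑ k ∈ Finset.range m, ν k / (N : ℝ) ^ (2 * k)| ≤ B / (N : ℝ) ^ (2 * m))
    (h2 : ∀ N : ℕ, 1 ≤ N → |e N| ≤ A / (N : ℝ) ^ (2 * m)) :
    ∀ k : ℕ, k < m → ν k = 0 := by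
  intro k
  induction k using Nat.strong_induction_on with
  | _ k ih =>
    intro hk
    set S : ℝ := |A| + |B| + ∑ i ∈ Finset.range m, |ν i| with hS
    have key : ∀ N : ℕ, 1 ≤ N → |ν k| * (N : ℝ) ^ 2 ≤ S := by
      intro N hN
      have hN' : (1 : ℝ) ≤ N := by exact_mod_cast hN
      have hN0 : (0 : ℝ) < N := by linarith
      have hP : (0 : ℝ) < (N : ℝ) ^ (2 * k) := by positivity
      have hP2 : (0 : ℝ) < (N : ℝ) ^ (2 * k + 2) := by positivity
      have hkm : k ∈ Finset.range m := Finset.mem_range.2 hk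
      have e1 : ν k / (N : ℝ) ^ (2 * k) = ∑ i ∈ Finset.range m, ν i / (N : ℝ) ^ (2 * i)
          - ∑ i ∈ (Finset.range m).erase k, ν i / (N : ℝ) ^ (2 * i) := by
        rw [← Finset.add_sum_erase _ _ hkm]
        ring
      have e2 : |∑ i ∈ Finset.range m, ν i / (N : ℝ) ^ (2 * i)| ≤ (|A| + |B|) / (N : ℝ) ^ (2 * k + 2) := by
        have f1 := h1 N hN
        have f2 := h2 N hN
        have f3 : |∑ i ∈ Finset.range m, ν i / (N : ℝ) ^ (2 * i)| ≤
            |e N - ∑ i ∈ Finset.range m, ν i / (N : ℝ) ^ (2 * i)| + |e N| := by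
          have := abs_sub (e N - ∑ i ∈ Finset.range m, ν i / (N : ℝ) ^ (2 * i)) (e N)
          rw [show e N - ∑ i ∈ Finset.range m, ν i / (N : ℝ) ^ (2 * i) - e N
            = -∑ i ∈ Finset.range m, ν i / (N : ℝ) ^ (2 * i) by ring, abs_neg] at this
          exact this
        have f4 : B / (N : ℝ) ^ (2 * m) + A / (N : ℝ) ^ (2 * m) ≤ (|A| + |B|) / (N : ℝ) ^ (2 * m) := by
          rw [← add_div]
          refine div_le_div_of_nonneg_right ?_ (by positivity)
          have := le_abs_self A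
          have := le_abs_self B
          linarith
        have f5 : (|A| + |B|) / (N : ℝ) ^ (2 * m) ≤ (|A| + |B|) / (N : ℝ) ^ (2 * k + 2) := by
          refine div_le_div_of_nonneg_left (by positivity) hP2 ?_
          exact pow_le_pow_right₀ hN' (by omega)
        linarith
      have e3 : |∑ i ∈ (Finset.range m).erase k, ν i / (N : ℝ) ^ (2 * i)| ≤
          (∑ i ∈ Finset.range m, |ν i|) / (N : ℝ) ^ (2 * k + 2) := by
        refine (Finset.abs_sum_le_sum_abs _ _).trans ?_
        rw [Finset.sum_div]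
        refine le_trans (Finset.sum_le_sum (g := fun i => |ν i| / (N : ℝ) ^ (2 * k + 2)) fun i hi => ?_)
          (Finset.sum_le_sum_of_subset_of_nonneg (Finset.erase_subset _ _) fun i _ _ => by positivity)
        have hik := Finset.mem_erase.1 hi
        rcases lt_or_gt_of_ne hik.1 with h | h
        · have h0 := ih i h (by omega)
          rw [h0]
          simp
        · rw [abs_div, abs_of_pos (by positivity : (0 : ℝ) < (N : ℝ) ^ (2 * i))]
          refine div_le_div_of_nonneg_left (abs_nonneg _) hP2 ?_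
          exact pow_le_pow_right₀ hN' (by omega)
      have e4 : |ν k / (N : ℝ) ^ (2 * k)| ≤ S / (N : ℝ) ^ (2 * k + 2) := by
        rw [e1]
        refine (abs_sub _ _).trans ?_
        rw [hS, add_div]
        exact add_le_add e2 e3
      rw [abs_div, abs_of_pos hP, div_le_div_iff₀ hP hP2, pow_add] at e4
      have e5 : |ν k| * (N : ℝ) ^ 2 * (N : ℝ) ^ (2 * k) ≤ S * (N : ℝ) ^ (2 * k) := by
        linarith
      exact le_of_mul_le_mul_right e5 hP
    by_contra hne
    have hpos : 0 < |ν k| := abs_pos.2 hne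
    obtain ⟨N, hN⟩ := exists_nat_gt (S / |ν k|)
    have hN1 : S < |ν k| * ((N + 1 : ℕ) : ℝ) ^ 2 := by
      rw [div_lt_iff₀ hpos] at hN
      push_cast
      have : (N : ℝ) ≤ ((N : ℝ) + 1) ^ 2 := by nlinarith [Nat.cast_nonneg (α := ℝ) N]
      nlinarith
    exact absurd (key (N + 1) (by omega)) (not_le.2 hN1)

theorem VAN : VAN_stmt := by
  intro e ν m A B h1 h2 N hN
  have h := h1 N hN
  have h0 : ∑ k ∈ Finset.range m, ν k / (N : ℝ) ^ (2 * k) = 0 := by
    refine Finset.sum_eq_zero fun k hk => ?_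
    rw [VAN_zero e ν m A B h1 h2 k (Finset.mem_range.1 hk), zero_div]
  rw [h0, sub_zero] at h
  exact h

end Pool.Agent.QX
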