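import Pool.Agent.helper37.QX.SpecG

/-!
Row `qg:VRC` (MP_07c750_an).
-/

set_option autoImplicit false
set_option linter.unusedVariables false

open Filter Set

namespace Pool.Agent.QX

theorem VRC_SO {ψ : Wd → ℂ} {K : ℝ} (h : ∀ v, ‖ψ v‖ ≤ K) (i : Fin 4) (v : Wd) : ‖SO i ψ v‖ ≤ 2 * K := by
  have hK : 0 ≤ K := (norm_nonneg _).trans (h [])
  cases v with
  | nil =>
    show ‖ψ [i]‖ ≤ 2 * K
    have := h [i]
    linarith
  | cons j v =>
    show ‖(if j = i then ψ v else 0) + ψ (i :: j :: v)‖ ≤ 2 * K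
    have h1 : ‖(if j = i then ψ v else 0)‖ ≤ K := by
      split_ifs
      · exact h v
      · rw [norm_zero]; exact hK
    have h2 := h (i :: j :: v)
    exact (norm_add_le _ _).trans (by linarith)

theorem VRC_it (i : Fin 4) (j : ℕ) : ∀ {ψ : Wd → ℂ} {K : ℝ}, (∀ v, ‖ψ v‖ ≤ K) → ∀ v, ‖((SO i)^[j] ψ) v‖ ≤ 2 ^ j * K := by
  induction j with
  | zero =>
    intro ψ K h v
    rw [Function.iterate_zero, id, pow_zero, one_mul]
    exact h v
  | succ j ih =>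
    intro ψ K h v
    rw [Function.iterate_succ_apply, pow_succ, mul_assoc]
    exact ih (VRC_SO h i) v

theorem VRC_term {ψ : Wd → ℂ} {K : ℝ} (h : ∀ v, ‖ψ v‖ ≤ K) (z : ℂ) (i : Fin 4) (v : Wd) (j : ℕ) :
    ‖z ^ j / (j.factorial : ℂ) * ((SO i)^[j] ψ) v‖ ≤ (2 * ‖z‖) ^ j / (j.factorial : ℝ) * K := by
  rw [norm_mul, norm_div, norm_pow, Complex.norm_natCast]
  calc ‖z‖ ^ j / (j.factorial : ℝ) * ‖((SO i)^[j] ψ) v‖ ≤ ‖z‖ ^ j / (j.factorial : ℝ) * (2 ^ j * K) :=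
        mul_le_mul_of_nonneg_left (VRC_it i j h v) (by positivity)
    _ = _ := by rw [mul_pow]; ring

theorem VRC_sum (z : ℂ) (K : ℝ) : HasSum (fun j : ℕ => (2 * ‖z‖) ^ j / (j.factorial : ℝ) * K) (Real.exp (2 * ‖z‖) * K) := by
  have h := (NormedSpace.expSeries_div_hasSum_exp (𝔸 := ℝ) (2 * ‖z‖)).mul_right K
  rw [← congrFun Real.exp_eq_exp_ℝ (2 * ‖z‖)] at h
  exact h

theorem VRC_EO {ψ : Wd → ℂ} {K : ℝ} (h : ∀ v, ‖ψ v‖ ≤ K) (z : ℂ) (i : Fin 4) (v : Wd) :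
    HasSum (fun j : ℕ => z ^ j / (j.factorial : ℂ) * ((SO i)^[j] ψ) v) (EO z i ψ v) := by
  unfold EO
  exact (Summable.of_norm_bounded (VRC_sum z K).summable (VRC_term h z i v)).hasSum

theorem VRC_bd (c : ℝ) (L : List (Fin 4 × Bool)) : ∃ K : ℝ, ∀ v, ‖PsL c L v‖ ≤ K := by
  induction L with
  | nil =>
    refine ⟨1, fun v => ?_⟩
    show ‖e0 v‖ ≤ 1
    unfold e0
    split_ifs <;> simp
  | cons s L ih =>
    obtain ⟨K, hK⟩ := ih
    refine ⟨Real.exp (2 * ‖zs c s.2‖) * K, fun v => ?_⟩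
    show ‖EO (zs c s.2) s.1 (PsL c L) v‖ ≤ _
    unfold EO
    exact tsum_of_norm_bounded (VRC_sum (zs c s.2) K) (VRC_term hK (zs c s.2) s.1 v)

theorem VRC_SOsum (i : Fin 4) {φ : ℕ → Wd → ℂ} {ψ : Wd → ℂ} (h : ∀ v, HasSum (fun j => φ j v) (ψ v)) (v : Wd) :
    HasSum (fun j => SO i (φ j) v) (SO i ψ v) := by
  cases v with
  | nil => exact h [i]
  | cons k v =>
    show HasSum (fun j => (if k = i then φ j v else 0) + φ j (i :: k :: v)) ((if k = i then ψ v else 0) + ψ (i :: k :: v))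
    refine HasSum.add ?_ (h _)
    split_ifs
    · exact h v
    · exact hasSum_zero

theorem VRC_SWsum (u : Wd) {φ : ℕ → Wd → ℂ} {ψ : Wd → ℂ} (h : ∀ v, HasSum (fun j => φ j v) (ψ v)) :
    ∀ v, HasSum (fun j => SW u (φ j) v) (SW u ψ v) := by
  induction u with
  | nil => exact h
  | cons i u ih =>
    intro v
    exact VRC_SOsum i ih v

theorem VRC_SOsmul (i : Fin 4) (a : ℂ) (ψ : Wd → ℂ) : SO i (fun v => a * ψ v) = fun v => a * SO i ψ v := by
  funext v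
  cases v with
  | nil => rfl
  | cons k v =>
    show (if k = i then a * ψ v else 0) + a * ψ (i :: k :: v) = a * ((if k = i then ψ v else 0) + ψ (i :: k :: v))
    split_ifs
    · ring
    · ring

theorem VRC_SWsmul (u : Wd) (a : ℂ) (ψ : Wd → ℂ) : SW u (fun v => a * ψ v) = fun v => a * SW u ψ v := by
  induction u with
  | nil => rfl
  | cons i u ih =>
    show SO i (SW u (fun v => a * ψ v)) = fun v => a * SO i (SW u ψ) v
    rw [ih, VRC_SOsmul]

theorem VRC_rep (i : Fin 4) (j : ℕ) (ψ : Wd → ℂ) : SW (List.replicate j i) ψ = (SO i)^[j] ψ := by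
  induction j with
  | zero => rfl
  | succ j ih =>
    rw [Function.iterate_succ_apply', ← ih]
    rfl

theorem VRC_app (u w : Wd) (ψ : Wd → ℂ) : SW (u ++ w) ψ = SW u (SW w ψ) := by
  unfold SW
  exact List.foldr_append

theorem VRC : VRC_stmt := by
  refine ⟨VRC_bd, ?_⟩
  intro c u i b L
  obtain ⟨K, hK⟩ := VRC_bd c L
  have h1 := VRC_SWsum u (fun v => VRC_EO hK (zs c b) i v) []
  have h2 : (fun j : ℕ => zs c b ^ j / (j.factorial : ℂ) * SW (u ++ List.replicate j i) (PsL c L) []) =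
      fun j : ℕ => SW u (fun v => zs c b ^ j / (j.factorial : ℂ) * ((SO i)^[j] (PsL c L)) v) [] := by
    funext j
    rw [VRC_SWsmul, VRC_app, VRC_rep]
  rw [h2]
  exact h1

end Pool.Agent.QX
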