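import Pool.Agent.helper4.QX.SpecE
import Pool.Agent.helper23.RP.PUS

/-!
Row `qe:ZRP` (MP_07c750_an).
-/

set_option autoImplicit false

open scoped MatrixGroups ContDiff Topology UpperHalfPlane
open UpperHalfPlane MeasureTheory ProbabilityTheory Filter Set Polynomial
open Pool.Agent.QU Pool.Agent.RP

namespace Pool.Agent.QX

theorem ZRP_one (N : ℕ) (G : Type) [Group G] (f : G →* F2) (D : ℕ) (P : Mat D G) (r : ℝ)
    (σ : F2 →* Equiv.Perm (Fin N)) (h : RepZ σ (pushM f P) r) :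
    RepB (V := FI2_S N) (FI2_rho (σ.comp f)) P r := by
  intro v
  have h1 := h (fun i => (v i : EuclideanSpace ℂ (Fin N))) (fun i => (v i).2)
  have e : ∀ i, ‖∑ j, rep (FI2_rho (σ.comp f)) (P i j) (v j)‖ =
      ‖∑ j, rep (permRep σ) (pushM f P i j) (v j : EuclideanSpace ℂ (Fin N))‖ := by
    intro i
    have e0 : ((∑ j, rep (FI2_rho (σ.comp f)) (P i j) (v j) : FI2_S N) : EuclideanSpace ℂ (Fin N)) =
        ∑ j, ((rep (FI2_rho (σ.comp f)) (P i j) (v j) : FI2_S N) : EuclideanSpace ℂ (Fin N)) :=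
      AddSubmonoidClass.coe_finsetSum _ _
    show ‖((∑ j, rep (FI2_rho (σ.comp f)) (P i j) (v j) : FI2_S N) : EuclideanSpace ℂ (Fin N))‖ = _
    rw [e0]
    refine congrArg norm (Finset.sum_congr rfl fun j _ => ?_)
    rw [FI2_rep]
    obtain ⟨_, _, _, _, _, _, p1, p2⟩ := PUS G F2 f (P i j) 0
    rw [p2, p1]
    rfl
  simp only [e]
  exact h1

theorem ZRP_two (N : ℕ) (Γ : Subgroup SL(2, ℝ)) (σ : Γ →* Equiv.Perm (Fin N)) (μ : ℝ) (φ : ℍ → Fin N → ℂ)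
    (h : IsNewEigenfunction σ μ φ) : ∃ ψ : ℍ → FI2_S N, IsEigensection (V := FI2_S N) (FI2_rho σ) μ ψ ∧
      ∀ z, ‖ψ z‖ ^ 2 = ∑ i, ‖φ z i‖ ^ 2 := by
  obtain ⟨hCD, heq, hsum, hlap⟩ := h
  let ψ : ℍ → FI2_S N := fun z => ⟨WithLp.toLp 2 (φ z), hsum z⟩
  have hcd : CD ∞ ψ := by
    have e1 : CD ∞ (fun z => (ψ z : EuclideanSpace ℂ (Fin N))) := by
      unfold CD
      rw [contDiffOn_piLp]
      intro i
      exact hCD i
    have e2 : ContDiffOn ℝ ∞ (fun w => ((FI2_S N).orthogonalProjectionOnto.restrictScalars ℝ)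
        (onC (fun z => (ψ z : EuclideanSpace ℂ (Fin N))) w)) CA1_U :=
      ContDiffOn.continuousLinearMap_comp _ e1
    refine e2.congr fun w hw => ?_
    show ψ (ofComplex w) = (FI2_S N).orthogonalProjectionOnto (ψ (ofComplex w)).1
    rw [Submodule.orthogonalProjectionOnto_mem_subspace_eq_self]
  have hCD2 : CD 2 ψ := hcd.of_le (WithTop.coe_le_coe.2 (le_top : (2 : ℕ∞) ≤ ⊤))
  refine ⟨ψ, ⟨hcd, ?_, ?_⟩, ?_⟩
  · intro γ z
    apply Subtype.ext
    show WithLp.toLp 2 (φ (γ • z)) = permRep σ γ (WithLp.toLp 2 (φ z))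
    ext j
    obtain ⟨i, rfl⟩ := (σ γ).surjective j
    rw [FI2_perm]
    exact heq γ z i
  · intro z
    apply Subtype.ext
    ext i
    have h2 := FI2_lap (((EuclideanSpace.proj i : EuclideanSpace ℂ (Fin N) →L[ℂ] ℂ).comp
      (FI2_S N).subtypeL).restrictScalars ℝ) ψ hCD2 z
    have h3 : ((lap ψ z : FI2_S N) : EuclideanSpace ℂ (Fin N)) i = lap (fun z => φ z i) z := h2.symm
    rw [h3, hlap i z]
    rfl
  · intro z
    show ‖(ψ z : EuclideanSpace ℂ (Fin N))‖ ^ 2 = _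
    rw [EuclideanSpace.norm_sq_eq]

theorem ZRP : ZRP_stmt :=
  fun N => ⟨fun G _ f D P r σ h => ZRP_one N G f D P r σ h, fun Γ σ μ φ h => ZRP_two N Γ σ μ φ h⟩

end Pool.Agent.QX
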